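import Pool.Agent.Helper56.TH.Iface

/-!
# Iteration of limits (block T9 of MP_6f1bc5_lc)
-/

set_option linter.unusedSectionVars false

universe u

namespace Pool.Agent.Helper56.TH

open Classical

variable {M : Type u} [CommSemiring M] [LinearOrder M] [IsStrictOrderedRing M]
  [CanonicallyOrderedAdd M] {S : Set (Set M)}

/-- a function that does not change from `b` on is constant from `b` on -/
theorem const_of_step (h : Base S) {f : M → M} (hf : Fn S f) {b : M}
    (hstep : ∀ s, b ≤ s → f (s + 1) = f s) : ∀ s, b ≤ s → f s = f b := by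
  have key : ∀ d, f (b + d) = f b := by
    refine h.ind (P := fun d => f (b + d) = f b) ?_ ?_ ?_
    · exact h.eq (h.fn_comp hf (h.fn_add (h.fn_const b) h.fn_id)) (h.fn_const _)
    · simp
    · intro d hd
      have := hstep (b + d) le_self_add
      rw [← add_assoc, this, hd]
  intro s hs
  obtain ⟨d, rfl⟩ := exists_add_of_le hs
  exact key d

theorem iterate_limit (h : Base S) (hL : LP S) {G : M → M → M} (hG : Fn₂ S G)
    (hc : ∀ j, ∃ g s₀, ∀ s, s₀ ≤ s → G s j = g) {T : M → M → M} (hTf : Fn₂ S T)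
    (h0 : ∀ s, T s 0 = 0) (hs : ∀ s j, T s (j + 1) = G s (T s j)) (m : M) :
    ∃ s₀, ∀ s, s₀ ≤ s → ∀ j ≤ m, T s j = T s₀ j := by
  let P : M → M → Prop := fun j s => j = m + 1 ∨ T (s + 1) j ≠ T s j
  have hP : Dec₂ S P := by
    refine h.or (h.eq h.fn_p1 (h.fn_const _)) ?_
    exact h.ne (h.fn_comp₂ hTf (h.fn_add h.fn_p2 (h.fn_const 1)) h.fn_p1)
      (h.fn_comp₂ hTf h.fn_p2 h.fn_p1)
  have hXex : ∀ s, ∃ y ≤ m + 1, P y s := fun s => ⟨m + 1, le_rfl, Or.inl rfl⟩
  let X : M → M := fun s => lst (fun j => j ≤ m + 1 ∧ P j s)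
  have hX : Fn S X := h.fn_lst_le (h.fn_const (m + 1)) hP
  have hXspec : ∀ s, X s ≤ m + 1 ∧ P (X s) s ∧ ∀ z < X s, ¬ P z s :=
    fun s => h.lst_le_spec hP (hXex s)
  obtain ⟨l, ⟨b, hb⟩, hl⟩ := hL X hX (m + 1) (fun r => (hXspec r).1)
  -- from `b` on all `T s j`, `j < l` are constant
  have hlow : ∀ j, j < l → ∀ s, b ≤ s → T (s + 1) j = T s j := by
    intro j hj s hs'
    have h1 := (hXspec s).2.2 j (lt_of_lt_of_le hj (hb s hs'))
    by_contra hne
    exact h1 (Or.inr hne)
  have hl1 : l = m + 1 := by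
    by_contra hne
    obtain ⟨r, -, hr⟩ := hl 0
    have hle : l ≤ m + 1 := hr ▸ (hXspec r).1
    have hlt : l < m + 1 := lt_of_le_of_ne hle hne
    rcases eq_or_ne l 0 with rfl | hl0
    · have h2 := (hXspec r).2.1
      rw [hr] at h2
      rcases h2 with h2 | h2
      · exact absurd h2 (lt_of_lt_of_le one_pos le_add_self).ne
      · exact h2 (by rw [h0, h0])
    · obtain ⟨l', rfl⟩ := h.exists_pred (pos_iff_ne_zero.2 hl0)
      have h3 := const_of_step h (h.fn_left hTf l') (hlow l' (h.lt_add_one_iff.2 le_rfl))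
      obtain ⟨g, s₀, hg⟩ := hc (T b l')
      obtain ⟨r', hr', hr''⟩ := hl (max b s₀)
      have hbr : b ≤ r' := (le_max_left _ _).trans hr'
      have hsr : s₀ ≤ r' := (le_max_right _ _).trans hr'
      have h4 := (hXspec r').2.1
      rw [hr''] at h4
      rcases h4 with h4 | h4
      · exact hne h4
      · apply h4
        rw [hs, hs, h3 r' hbr, h3 (r' + 1) (hbr.trans le_self_add), hg r' hsr,
          hg (r' + 1) (hsr.trans le_self_add)]
  refine ⟨b, fun s hs' j hj => ?_⟩
  refine const_of_step h (h.fn_left hTf j) (hlow j ?_) s hs'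
  rw [hl1]
  exact h.lt_add_one_iff.2 hj

end Pool.Agent.Helper56.TH
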