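import Pool.Agent.Helper56.TH.Iface
import Pool.Agent.Helper24.TH.IterateLimit

/-!
# `Σ⁰₁` comprehension from `Export` and limits (block T10 of MP_6f1bc5_lc)
-/

set_option linter.unusedSectionVars false

universe u

namespace Pool.Agent.Helper56.TH

open Classical

variable {M : Type u} [CommSemiring M] [LinearOrder M] [IsStrictOrderedRing M]
  [CanonicallyOrderedAdd M] {S : Set (Set M)}

/-- `x` is enumerated before stage `s` -/
def EnB (P : M → M → Prop) (y s : M) : Prop := ∃ z < s, P z y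

/-- some number below `u` is enumerated before stage `s` but not before stage `v` -/
noncomputable def QB (P : M → M → Prop) (s u v : M) : M :=
  if ∃ y < u, EnB P y s ∧ ¬ EnB P y v then 1 else 0

theorem EnB.mono {P : M → M → Prop} {y s s' : M} (hs : s ≤ s') (hy : EnB P y s) : EnB P y s' := by
  obtain ⟨z, hz, hz'⟩ := hy
  exact ⟨z, lt_of_lt_of_le hz hs, hz'⟩

theorem dec_EnB (h : Base S) {P : M → M → Prop} (hP : Dec₂ S P) {f g : M → M} (hf : Fn S f)
    (hg : Fn S g) : Dec S (fun x => EnB P (f x) (g x)) := by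
  refine h.bex (t := g) (P := fun z x => P z (f x)) hg ?_
  exact h.comp₂ hP h.fn_p1 (h.fn_comp hf h.fn_p2)

theorem fn_QB (h : Base S) {P : M → M → Prop} (hP : Dec₂ S P) {f g k : M → M} (hf : Fn S f)
    (hg : Fn S g) (hk : Fn S k) : Fn S (fun x => QB P (f x) (g x) (k x)) := by
  refine h.fn_ite (P := fun x => ∃ y < g x, EnB P y (f x) ∧ ¬ EnB P y (k x)) ?_
    (h.fn_const 1) (h.fn_const 0)
  refine h.bex (t := g) (P := fun y x => EnB P y (f x) ∧ ¬ EnB P y (k x)) hg ?_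
  exact h.and (dec_EnB h hP h.fn_p1 (h.fn_comp hf h.fn_p2))
    (h.not (dec_EnB h hP h.fn_p1 (h.fn_comp hk h.fn_p2)))

theorem QB_anti (P : M → M → Prop) (s u v v' : M) (hv : v ≤ v') : QB P s u v' ≤ QB P s u v := by
  unfold QB
  by_cases h1 : ∃ y < u, EnB P y s ∧ ¬ EnB P y v'
  · have h2 : ∃ y < u, EnB P y s ∧ ¬ EnB P y v := by
      obtain ⟨y, hy, h3, h4⟩ := h1
      exact ⟨y, hy, h3, fun h5 => h4 (h5.mono hv)⟩
    rw [if_pos h1, if_pos h2]
  · rw [if_neg h1]
    exact zero_le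

theorem QB_congr {P : M → M → Prop} {s s' u v : M} (hs : ∀ y < u, (EnB P y s ↔ EnB P y s')) :
    QB P s u v = QB P s' u v := by
  unfold QB
  have : (∃ y < u, EnB P y s ∧ ¬ EnB P y v) ↔ (∃ y < u, EnB P y s' ∧ ¬ EnB P y v) := by
    constructor
    · rintro ⟨y, hy, h1, h2⟩
      exact ⟨y, hy, (hs y hy).1 h1, h2⟩
    · rintro ⟨y, hy, h1, h2⟩
      exact ⟨y, hy, (hs y hy).2 h1, h2⟩
  simp only [this]

theorem QB_eq_zero {P : M → M → Prop} {s u v : M} (hs : ∀ y < u, EnB P y s → EnB P y v) :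
    QB P s u v = 0 := by
  unfold QB
  rw [if_neg]
  rintro ⟨y, hy, h1, h2⟩
  exact h2 (hs y hy h1)

theorem QB_eq_one {P : M → M → Prop} {s u v : M} {y : M} (hy : y < u) (h1 : EnB P y s)
    (h2 : ¬ EnB P y v) : QB P s u v = 1 := by
  unfold QB
  rw [if_pos ⟨y, hy, h1, h2⟩]

theorem two_mul_ne (h : Base S) (d d' : M) : 2 * d + 1 ≠ 2 * d' := by
  intro he
  rcases le_or_gt d' d with h1 | h1
  · have h2 : 2 * d' ≤ 2 * d := mul_le_mul_of_nonneg_left h1 zero_le
    have h3 : 2 * d < 2 * d + 1 := lt_add_of_pos_right _ one_pos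
    exact absurd he (lt_of_le_of_lt h2 h3).ne'
  · have h2 : d + 1 ≤ d' := h.add_one_le_iff.2 h1
    have h3 : 2 * (d + 1) ≤ 2 * d' := mul_le_mul_of_nonneg_left h2 zero_le
    have h4 : 2 * d + 1 < 2 * (d + 1) := by
      have e : 2 * (d + 1) = 2 * d + 1 + 1 := by ring
      rw [e]
      exact lt_add_of_pos_right _ one_pos
    exact absurd he (lt_of_lt_of_le h4 h3).ne

/-- Block T10 with the earlier blocks as hypotheses. -/
theorem sigmaCA_aux (h : Base S)
    (hrec : ∀ {a : M → M}, Fn S a → ∀ {g : M → M → M → M}, Fn₃ S g →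
      ∃ F : M → M → M, Fn₂ S F ∧ (∀ e, F 0 e = a e) ∧ ∀ n e, F (n + 1) e = g n (F n e) e)
    (hpow : ∃ p : M → M, IsPow S p)
    (hsb : ∀ {P : M → M → Prop}, Dec₂ S P → ∀ u : M,
      ∃ t, ∀ y < u, (∃ z, P z y) → ∃ z < t, P z y)
    (hE : Export S) (hL : LP S) : SigmaCA S := by
  intro P hP
  obtain ⟨p, hp⟩ := hpow
  have hp1 : p 1 = 2 := by
    have := hp.succ 0
    rw [zero_add, hp.zero, mul_one] at this
    exact this
  obtain ⟨lo, hi, W, m, hlo, hhi, hW, hlh, hhl, hloc, hex⟩ := hE p hp 1 (QB P)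
    (fn_QB h hP h.fn_p1 (h.fn_p1_comp h.fn_p2) (h.fn_p2_comp h.fn_p2)) (QB_anti P)
  rw [hp1] at hex
  -- monotonicity of `lo`, `hi`
  have hhi1 : ∀ j, hi j < hi (j + 1) := fun j => lt_of_lt_of_le (hhl j) (hlh _)
  have hjhi : ∀ j, j ≤ hi j := by
    refine h.ind (h.le h.fn_id hhi) zero_le ?_
    intro j hj
    exact h.add_one_le_iff.2 (lt_of_le_of_lt hj (hhi1 j))
  have hjlo : ∀ j, j ≤ lo j := by
    intro j
    rcases eq_or_ne j 0 with rfl | hj
    · exact zero_le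
    · obtain ⟨i, rfl⟩ := h.exists_pred (pos_iff_ne_zero.2 hj)
      exact h.add_one_le_iff.2 (lt_of_le_of_lt (hjhi i) (hhl i))
  have hhimono : ∀ i j, i ≤ j → hi i ≤ hi j := by
    intro i j hij
    obtain ⟨d, rfl⟩ := exists_add_of_le hij
    clear hij
    revert d
    refine h.ind (P := fun d => hi i ≤ hi (i + d)) ?_ (by simp) ?_
    · exact h.le (h.fn_const _) (h.fn_comp hhi (h.fn_add (h.fn_const _) h.fn_id))
    · intro d hd
      rw [← add_assoc]
      exact hd.trans (hhi1 _).le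
  by_cases hA : ∃ b, ∀ j, b ≤ j → ∀ s, QB P s (hi j) (lo (j + 1)) = 0
  · -- Case A
    obtain ⟨b, hb⟩ := hA
    refine h.congr (P := fun x => EnB P x (lo (b + x + 1 + 1))) ?_ ?_
    · refine dec_EnB h hP h.fn_id (h.fn_comp hlo ?_)
      exact h.fn_add (h.fn_add (h.fn_add (h.fn_const b) h.fn_id) (h.fn_const 1)) (h.fn_const 1)
    · intro x
      constructor
      · rintro ⟨z, -, hz⟩
        exact ⟨z, hz⟩
      · rintro ⟨z, hz⟩
        have h1 := hb (b + x + 1) (le_trans le_self_add le_self_add) (z + 1)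
        by_contra hne
        have hxlt : x < hi (b + x + 1) := by
          refine lt_of_lt_of_le ?_ (hjhi _)
          exact lt_of_le_of_lt le_add_self (lt_add_of_pos_right _ one_pos)
        have h2 := QB_eq_one (P := P) (s := z + 1) hxlt ⟨z, lt_add_of_pos_right _ one_pos, hz⟩ hne
        rw [h2] at h1
        exact one_ne_zero h1
  · -- Case B
    exfalso
    push Not at hA
    -- settling times
    have hset : ∀ u, ∃ t, ∀ y < u, (∃ z, P z y) → EnB P y t := fun u => hsb hP u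
    have hst : ∀ {u t : M}, (∀ y < u, (∃ z, P z y) → EnB P y t) → ∀ s, ∀ y < u,
        EnB P y s → EnB P y t := by
      rintro u t ht s y hy ⟨z, -, hz⟩
      exact ht y hy ⟨z, hz⟩
    -- even triples
    let E : M → M → M → M → Prop := fun s i j l =>
      ∃ d ≤ W s j + QB P s (hi i) (lo j) + QB P s (hi j) (lo l),
        W s j + QB P s (hi i) (lo j) + QB P s (hi j) (lo l) = QB P s (hi i) (lo l) + 2 * d
    have hEmk : ∀ {s i j l d}, W s j + QB P s (hi i) (lo j) + QB P s (hi j) (lo l)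
        = QB P s (hi i) (lo l) + 2 * d → E s i j l := by
      intro s i j l d hd
      refine ⟨d, ?_, hd⟩
      rw [hd, two_mul]
      exact le_trans le_self_add le_add_self
    have hEdec : ∀ {fs fi fj fl : M → M}, Fn S fs → Fn S fi → Fn S fj → Fn S fl →
        Dec S (fun x => E (fs x) (fi x) (fj x) (fl x)) := by
      intro fs fi fj fl hs hi' hj hl
      have hL' : Fn S (fun x => W (fs x) (fj x) + QB P (fs x) (hi (fi x)) (lo (fj x))
          + QB P (fs x) (hi (fj x)) (lo (fl x))) :=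
        h.fn_add (h.fn_add (h.fn_comp₂ hW hs hj)
          (fn_QB h hP hs (h.fn_comp hhi hi') (h.fn_comp hlo hj)))
          (fn_QB h hP hs (h.fn_comp hhi hj) (h.fn_comp hlo hl))
      refine h.bex_le hL' (P := fun d x => W (fs x) (fj x) + QB P (fs x) (hi (fi x)) (lo (fj x))
          + QB P (fs x) (hi (fj x)) (lo (fl x)) = QB P (fs x) (hi (fi x)) (lo (fl x)) + 2 * d) ?_
      refine h.eq (h.fn_comp hL' h.fn_p2) (h.fn_add ?_ (h.fn_mul (h.fn_const 2) h.fn_p1))
      exact h.fn_comp (fn_QB h hP hs (h.fn_comp hhi hi') (h.fn_comp hlo hl)) h.fn_p2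
    have hEeq : ∀ {s s' i j l : M}, i ≤ j → (∀ y < hi j, (∃ z, P z y) → EnB P y s) →
        (∀ y < hi j, (∃ z, P z y) → EnB P y s') → E s i j l → E s' i j l := by
      intro s s' i j l hij h1 h2 h3
      have e0 : ∀ u, u ≤ hi j → ∀ y < u, (EnB P y s ↔ EnB P y s') := by
        intro u hu y hy
        constructor
        · exact fun h4 => hst h2 s y (lt_of_lt_of_le hy hu) h4
        · exact fun h4 => hst h1 s' y (lt_of_lt_of_le hy hu) h4
      have e1 : W s j = W s' j := by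
        refine hloc s s' j fun u v huv hv => QB_congr (e0 u (huv.le.trans hv))
      have e2 : ∀ v, QB P s (hi i) v = QB P s' (hi i) v := fun v => QB_congr (e0 _ (hhimono _ _ hij))
      have e3 : ∀ v, QB P s (hi j) v = QB P s' (hi j) v := fun v => QB_congr (e0 _ le_rfl)
      obtain ⟨d, -, hd⟩ := h3
      rw [e1, e2, e2, e3] at hd
      exact hEmk hd
    -- odd triples exist
    have hodd : ∀ b, ∃ i j l, b ≤ i ∧ i < j ∧ j < l ∧
        ∀ s, (∀ y < hi j, (∃ z, P z y) → EnB P y s) → ¬ E s i j l := by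
      by_contra hcon
      push Not at hcon
      obtain ⟨b, hb⟩ := hcon
      obtain ⟨tb, htb⟩ := hset (hi b)
      obtain ⟨j, hj, s, hs⟩ := hA (max (b + 1) tb)
      have hj1 : b < j := h.add_one_le_iff.1 ((le_max_left _ _).trans hj)
      have hj2 : tb ≤ j := (le_max_right _ _).trans hj
      obtain ⟨tj, htj⟩ := hset (hi j)
      have h1 : ∀ l, j < l → E tj b j l := by
        intro l hl
        obtain ⟨s', hs', hs''⟩ := hb b j l le_rfl hj1 hl
        exact hEeq hj1.le hs' htj hs''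
      have h2 : QB P tj (hi j) (lo (j + 1)) = 1 := by
        have h3 : ∃ y < hi j, EnB P y s ∧ ¬ EnB P y (lo (j + 1)) := by
          by_contra h4
          apply hs
          refine QB_eq_zero fun y hy hy' => ?_
          by_contra h5
          exact h4 ⟨y, hy, hy', h5⟩
        obtain ⟨y, hy, h4, h5⟩ := h3
        exact QB_eq_one hy (hst htj s y hy h4) h5
      have h3 : QB P tj (hi b) (lo (j + 1)) = 0 := by
        refine QB_eq_zero fun y hy hy' => ?_
        refine (hst htb tj y hy hy').mono ?_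
        exact hj2.trans (le_trans le_self_add (hjlo _))
      -- a late index
      let l₀ := max (j + 1) tj
      have hl₀ : j < l₀ := h.add_one_le_iff.1 (le_max_left _ _)
      have hl₀' : tj ≤ lo l₀ := (le_max_right _ _).trans (hjlo _)
      have h4 : QB P tj (hi j) (lo l₀) = 0 := QB_eq_zero fun y hy hy' => hy'.mono hl₀'
      have h5 : QB P tj (hi b) (lo l₀) = 0 := QB_eq_zero fun y hy hy' => hy'.mono hl₀'
      obtain ⟨d, -, hd⟩ := h1 l₀ hl₀
      obtain ⟨d', -, hd'⟩ := h1 (j + 1) (lt_add_of_pos_right _ one_pos)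
      rw [h4, h5, add_zero, zero_add] at hd
      rw [h2, h3, zero_add, hd] at hd'
      exact two_mul_ne h d d' hd'
    -- triples
    let Tr : M → M → M → Prop := fun s j k => ∃ i₁ < k, ∃ i₂ < k, ∃ i₃ < k,
      j ≤ i₁ ∧ i₁ < i₂ ∧ i₂ < i₃ ∧ ¬ E s i₁ i₂ i₃
    have hTrdec : ∀ {fs fj fk : M → M}, Fn S fs → Fn S fj → Fn S fk →
        Dec S (fun x => Tr (fs x) (fj x) (fk x)) := by
      intro fs fj fk hs hj hk
      refine h.bex hk (P := fun i₁ x => ∃ i₂ < fk x, ∃ i₃ < fk x,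
        fj x ≤ i₁ ∧ i₁ < i₂ ∧ i₂ < i₃ ∧ ¬ E (fs x) i₁ i₂ i₃) ?_
      refine h.bex (t := fun q => fk (p2 q)) (h.fn_comp hk h.fn_p2)
        (P := fun i₂ q => ∃ i₃ < fk (p2 q),
        fj (p2 q) ≤ p1 q ∧ p1 q < i₂ ∧ i₂ < i₃ ∧ ¬ E (fs (p2 q)) (p1 q) i₂ i₃) ?_
      have g1 : Fn S (fun r : M => p2 (p2 r)) := h.fn_p2_comp h.fn_p2
      refine h.bex (t := fun r => fk (p2 (p2 r))) (h.fn_comp hk g1)
        (P := fun i₃ r => fj (p2 (p2 r)) ≤ p1 (p2 r) ∧ p1 (p2 r) < p1 r ∧ p1 r < i₃ ∧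
          ¬ E (fs (p2 (p2 r))) (p1 (p2 r)) (p1 r) i₃) ?_
      have g2 : Fn S (fun r : M => p2 (p2 (p2 r))) := h.fn_p2_comp g1
      have g3 : Fn S (fun r : M => p1 (p2 (p2 r))) := h.fn_p1_comp g1
      have g4 : Fn S (fun r : M => p1 (p2 r)) := h.fn_p1_comp h.fn_p2
      refine h.and (h.le (h.fn_comp hj g2) g3) (h.and (h.lt g3 g4) (h.and (h.lt g4 h.fn_p1) ?_))
      exact h.not (hEdec (h.fn_comp hs g2) g3 g4 h.fn_p1)
    let G : M → M → M := fun s j => lst (fun k => k ≤ s + 1 ∧ (k = s + 1 ∨ Tr s j k))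
    have hG : Fn₂ S G := by
      refine h.fn_lst_le (t := fun q => p1 q + 1) (h.fn_add h.fn_p1 (h.fn_const 1))
        (P := fun k q => k = p1 q + 1 ∨ Tr (p1 q) (p2 q) k) ?_
      refine h.or (h.eq h.fn_p1 (h.fn_add (h.fn_p1_comp h.fn_p2) (h.fn_const 1))) ?_
      exact hTrdec (h.fn_p1_comp h.fn_p2) (h.fn_p2_comp h.fn_p2) h.fn_p1
    have hGspec : ∀ s j, G s j ≤ s + 1 ∧ (G s j = s + 1 ∨ Tr s j (G s j)) ∧
        ∀ z < G s j, ¬ (z = s + 1 ∨ Tr s j z) := by
      intro s j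
      refine h.lst_le_spec (P := fun k _ => k = s + 1 ∨ Tr s j k) ?_ (t := s + 1) (x := 0)
        ⟨s + 1, le_rfl, Or.inl rfl⟩
      exact h.or (h.eq h.fn_p1 (h.fn_const _)) (hTrdec (h.fn_const _) (h.fn_const _) h.fn_p1)
    have hGle : ∀ {s j k}, Tr s j k → G s j ≤ k := by
      intro s j k hk
      by_contra hlt
      exact (hGspec s j).2.2 k (not_le.1 hlt) (Or.inr hk)
    have hc : ∀ j, ∃ g s₀, ∀ s, s₀ ≤ s → G s j = g := by
      intro j
      obtain ⟨i₁, i₂, i₃, h1, h2, h3, h4⟩ := hodd j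
      obtain ⟨t, ht⟩ := hset (hi (i₃ + 1))
      let s₁ := max (i₃ + 1) t
      have hTrs : ∀ s, s₁ ≤ s → Tr s j (i₃ + 1) := by
        intro s hs
        have hi3 : i₃ < i₃ + 1 := lt_add_of_pos_right _ one_pos
        refine ⟨i₁, (h2.trans h3).trans hi3, i₂, h3.trans hi3, i₃, hi3, h1, h2, h3, h4 s ?_⟩
        intro y hy hz
        refine (ht y (lt_of_lt_of_le hy (hhimono _ _ (h3.trans hi3).le)) hz).mono ?_
        exact (le_max_right _ _).trans hs
      have hTreq : ∀ s s', s₁ ≤ s → s₁ ≤ s' → ∀ k ≤ i₃ + 1, Tr s j k → Tr s' j k := by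
        rintro s s' hs hs' k hk ⟨a, ha, b, hb, c, hc', h5, h6, h7, h8⟩
        refine ⟨a, ha, b, hb, c, hc', h5, h6, h7, fun h9 => h8 ?_⟩
        have hst' : ∀ r, s₁ ≤ r → ∀ y < hi b, (∃ z, P z y) → EnB P y r := by
          intro r hr y hy hz
          refine (ht y (lt_of_lt_of_le hy (hhimono _ _ (hb.le.trans hk))) hz).mono ?_
          exact (le_max_right _ _).trans hr
        exact hEeq h6.le (hst' s' hs') (hst' s hs) h9
      have hG1 : ∀ s, s₁ ≤ s → Tr s j (G s j) ∧ G s j ≤ i₃ + 1 := by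
        intro s hs
        have h5 := hGle (hTrs s hs)
        refine ⟨?_, h5⟩
        rcases (hGspec s j).2.1 with h6 | h6
        · rw [h6] at h5
          have h7 : i₃ + 1 ≤ s := (le_max_left _ _).trans hs
          exact absurd (h.add_one_le_iff.1 (h5.trans h7)) (lt_irrefl _)
        · exact h6
      refine ⟨G s₁ j, s₁, fun s hs => ?_⟩
      refine le_antisymm ?_ ?_
      · exact hGle (hTreq s₁ s le_rfl hs _ (hG1 s₁ le_rfl).2 (hG1 s₁ le_rfl).1)
      · exact hGle (hTreq s s₁ hs le_rfl _ (hG1 s hs).2 (hG1 s hs).1)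
    obtain ⟨F, hF, hF0, hFs⟩ := hrec (h.fn_const (0 : M)) (g := fun _ x e => G e x)
      (h.fn_comp₂ hG (h.fn_p2_comp h.fn_p2) (h.fn_p1_comp h.fn_p2))
    have hT : Fn₂ S (fun s j => F j s) := h.fn_comp₂ hF h.fn_p2 h.fn_p1
    obtain ⟨s₀, hs₀⟩ := iterate_limit h hL hG hc hT (fun s => hF0 s) (fun s j => hFs j s) m
    let τ : M → M := fun k => F k s₀
    have hτ : Fn S τ := h.fn_left hF s₀
    have hτG : ∀ k < m, ∀ s, s₀ ≤ s → τ (k + 1) = G s (τ k) := by
      intro k hk s hs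
      have h1 := hs₀ s hs (k + 1) (h.add_one_le_iff.2 hk)
      have h2 := hs₀ s hs k hk.le
      change F (k + 1) s₀ = G s (F k s₀)
      rw [← h1, ← h2]
      exact hFs k s
    have hτTr : ∀ k < m, ∀ s, s₀ ≤ s → τ (k + 1) ≤ s → Tr s (τ k) (τ (k + 1)) := by
      intro k hk s hs hs'
      have h1 := (hGspec s (τ k)).2.1
      rw [← hτG k hk s hs] at h1
      rcases h1 with h1 | h1
      · rw [h1] at hs'
        exact absurd (h.add_one_le_iff.1 hs') (lt_irrefl _)
      · exact h1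
    have hτlt : ∀ k < m, τ k < τ (k + 1) := by
      intro k hk
      obtain ⟨i₁, h1, i₂, -, i₃, -, h2, -⟩ :=
        hτTr k hk (max s₀ (τ (k + 1))) (le_max_left _ _) (le_max_right _ _)
      exact lt_of_le_of_lt h2 h1
    have hτmono : ∀ n ≤ m, ∀ k ≤ n, τ k ≤ τ n := by
      intro n hn
      refine h.ind_le (P := fun n => ∀ k ≤ n, τ k ≤ τ n) (n := m) ?_ ?_ ?_ hn
      · refine h.ball_le h.fn_id (P := fun k n => τ k ≤ τ n) ?_
        exact h.le (h.fn_comp hτ h.fn_p1) (h.fn_comp hτ h.fn_p2)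
      · intro k hk
        rw [nonpos_iff_eq_zero.1 hk]
      · intro n hn ih k hk
        rcases eq_or_lt_of_le hk with rfl | hk'
        · exact le_rfl
        · exact (ih k (h.lt_add_one_iff.1 hk')).trans (hτlt n hn).le
    let J := max s₀ (τ m) + 1
    have hJs : s₀ ≤ hi J := ((le_max_left _ _).trans le_self_add).trans (hjhi J)
    have hJτ : τ m ≤ hi J := ((le_max_right _ _).trans le_self_add).trans (hjhi J)
    let B := pr (τ m) (pr (τ m) (τ m))
    let R : M → M → Prop := fun q k => τ k ≤ p1 q ∧ p1 q < p1 (p2 q) ∧ p1 (p2 q) < p2 (p2 q) ∧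
      p2 (p2 q) < τ (k + 1) ∧ ¬ E (hi J) (p1 q) (p1 (p2 q)) (p2 (p2 q))
    have hR : Dec₂ S R := by
      have g1 : Fn S (fun r : M => p1 (p1 r)) := h.fn_p1_comp h.fn_p1
      have g2 : Fn S (fun r : M => p1 (p2 (p1 r))) := h.fn_p1_comp (h.fn_p2_comp h.fn_p1)
      have g3 : Fn S (fun r : M => p2 (p2 (p1 r))) := h.fn_p2_comp (h.fn_p2_comp h.fn_p1)
      refine h.and (h.le (h.fn_comp hτ h.fn_p2) g1) (h.and (h.lt g1 g2) (h.and (h.lt g2 g3)
        (h.and (h.lt g3 (h.fn_comp hτ (h.fn_add h.fn_p2 (h.fn_const 1)))) (h.not ?_))))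
      exact hEdec (h.fn_const _) g1 g2 g3
    let qq : M → M := fun k => lst (fun q => q ≤ B ∧ R q k)
    have hqq : Fn S qq := h.fn_lst_le (h.fn_const B) hR
    have hqR : ∀ k < m, R (qq k) k := by
      intro k hk
      have hk1 : τ (k + 1) ≤ τ m := hτmono m le_rfl (k + 1) (h.add_one_le_iff.2 hk)
      obtain ⟨i₁, h1, i₂, h2, i₃, h3, h4, h5, h6, h7⟩ := hτTr k hk (hi J) hJs (hk1.trans hJτ)
      refine (h.lst_le_spec hR (t := B) (x := k) ⟨pr i₁ (pr i₂ i₃), ?_, ?_⟩).2.1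
      · exact Base.pr_mono (h1.le.trans hk1) (Base.pr_mono (h2.le.trans hk1) (h3.le.trans hk1))
      · simp only [R, h.p1_pr, h.p2_pr]
        exact ⟨h4, h5, h6, h3, h7⟩
    have hlast : ∀ k, k + 1 < m → p2 (p2 (qq k)) < p1 (qq (k + 1)) := by
      intro k hk
      have hk' : k < m := lt_trans (lt_add_of_pos_right _ one_pos) hk
      exact lt_of_lt_of_le (hqR k hk').2.2.2.1 (hqR (k + 1) hk).1
    have hJc : ∀ k < m, p2 (p2 (qq k)) < J := by
      intro k hk
      have h1 : p2 (p2 (qq k)) < τ (k + 1) := (hqR k hk).2.2.2.1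
      have h2 : τ (k + 1) ≤ τ m := hτmono m le_rfl (k + 1) (h.add_one_le_iff.2 hk)
      exact lt_of_lt_of_le h1 (h2.trans ((le_max_right _ _).trans le_self_add))
    obtain ⟨k, hk, d, hd⟩ := hex (fun k => p1 (qq k)) (fun k => p1 (p2 (qq k)))
      (fun k => p2 (p2 (qq k))) (h.fn_p1_comp hqq) (h.fn_p1_comp (h.fn_p2_comp hqq))
      (h.fn_p2_comp (h.fn_p2_comp hqq)) (fun k hk => ⟨(hqR k hk).2.1, (hqR k hk).2.2.1⟩)
      hlast J hJc
    exact (hqR k hk).2.2.2.2 (hEmk hd)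

end Pool.Agent.Helper56.TH
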