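import Pool.Agent.Helper56.TH.Rec2
import Pool.Agent.Helper24.TH.SigmaCA

/-!
# `Σ⁰₁` comprehension from `Export` and limits (block T10 of MP_6f1bc5_lc, final form)
-/

set_option linter.unusedSectionVars false

universe u

namespace Pool.Agent.Helper56.TH

open Classical

variable {M : Type u} [CommSemiring M] [LinearOrder M] [IsStrictOrderedRing M]
  [CanonicallyOrderedAdd M] {S : Set (Set M)}

theorem sigmaCA_of_export (h : Base S) (hE : Export S) (hL : LP S) : SigmaCA S :=
  sigmaCA_aux h (fun ha _ hg => h.exists_rec ha hg) h.exists_pow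
    (fun hP u => h.strong_bound hP u) hE hL

end Pool.Agent.Helper56.TH
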